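import Pool.Agent.Y649.ETR.Stm

/-!
# ETR-WDELTA
-/

set_option autoImplicit false
set_option linter.unusedSectionVars false

namespace Pool.Agent.Y146.ETR

open Finset Pool.Agent.Results.MP_44674b_co.WreathExact Pool.Agent.Y649.ETR

variable {X Y : Type} [Fintype X] [DecidableEq X] [Fintype Y] [DecidableEq Y] {d e : ℕ}

lemma st {Z : Type} [Fintype Z] [DecidableEq Z] (L M N : Matrix Z Z ℂ) (x y z : Z) :
    Pool.Agent.Results.MP_44674b_co.WreathExact.Star L M N x y z =
      ∑ u, L x u * M y u * N z u := rfl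

/-- inner matrix -/
def inn (A : Matrix X X ℂ) : Matrix (X × Y) (X × Y) ℂ :=
  fun p q => if p.2 = q.2 then A p.1 q.1 else 0

/-- outer matrix -/
def outm (B : Matrix Y Y ℂ) : Matrix (X × Y) (X × Y) ℂ := fun p q => B p.2 q.2

lemma wrc_eq (c : X → X → Fin (d + 1)) (c' : Y → Y → Fin (e + 1)) {p q : X × Y}
    (h : p.2 = q.2) : (wrc c c' p q).val = (c p.1 q.1).val := by
  unfold wrc
  rw [if_pos h]
  rfl

lemma wrc_ne (c : X → X → Fin (d + 1)) (c' : Y → Y → Fin (e + 1)) {p q : X × Y}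
    (h : p.2 ≠ q.2) : (wrc c c' p q).val = d + (c' p.2 q.2).val := by
  unfold wrc
  rw [if_neg h]

lemma inn_mem {c : X → X → Fin (d + 1)} {c' : Y → Y → Fin (e + 1)}
    (hd : ∀ x y, c' x y = 0 ↔ x = y) {A : Matrix X X ℂ} (hA : A ∈ boseMesner c) :
    (inn A : Matrix (X × Y) (X × Y) ℂ) ∈ boseMesner (wrc c c') := by
  obtain ⟨α, hα⟩ := bm_iff.mp hA
  refine bm_iff.mpr ⟨fun k => if h : k.val < d + 1 then α ⟨k.val, h⟩ else 0, fun p q => ?_⟩
  by_cases h : p.2 = q.2
  · have h1 := wrc_eq c c' h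
    have h2 : (wrc c c' p q).val < d + 1 := by rw [h1]; exact (c p.1 q.1).isLt
    simp only [inn, if_pos h, hα, dif_pos h2]
    congr 1
    exact Fin.ext h1.symm
  · have h1 := wrc_ne c c' h
    have h3 : c' p.2 q.2 ≠ 0 := fun h0 => h ((hd _ _).mp h0)
    have h4 : (c' p.2 q.2).val ≠ 0 := fun h0 => h3 (Fin.ext h0)
    have h2 : ¬ (wrc c c' p q).val < d + 1 := by omega
    simp only [inn, if_neg h, dif_neg h2]

lemma outm_mem {c : X → X → Fin (d + 1)} {c' : Y → Y → Fin (e + 1)}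
    (hd : ∀ x y, c' x y = 0 ↔ x = y) {B : Matrix Y Y ℂ} (hB : B ∈ boseMesner c') :
    (outm B : Matrix (X × Y) (X × Y) ℂ) ∈ boseMesner (wrc c c') := by
  obtain ⟨β, hβ⟩ := bm_iff.mp hB
  refine bm_iff.mpr ⟨fun k => if h : k.val < d + 1 then β 0 else β ⟨k.val - d, by
    have := k.isLt; omega⟩, fun p q => ?_⟩
  by_cases h : p.2 = q.2
  · have h1 := wrc_eq c c' h
    have h2 : (wrc c c' p q).val < d + 1 := by rw [h1]; exact (c p.1 q.1).isLt
    simp only [outm, hβ, dif_pos h2]
    congr 1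
    exact (hd _ _).mpr h
  · have h1 := wrc_ne c c' h
    have h3 : c' p.2 q.2 ≠ 0 := fun h0 => h ((hd _ _).mp h0)
    have h4 : (c' p.2 q.2).val ≠ 0 := fun h0 => h3 (Fin.ext h0)
    have h2 : ¬ (wrc c c' p q).val < d + 1 := by omega
    simp only [outm, hβ, dif_neg h2]
    congr 1
    apply Fin.ext
    simp only [h1]
    omega

/-- the values of a matrix of the wreath algebra -/
lemma wr_val {c : X → X → Fin (d + 1)} {c' : Y → Y → Fin (e + 1)}
    (hd : ∀ x y, c' x y = 0 ↔ x = y) {M : Matrix (X × Y) (X × Y) ℂ}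
    (hM : M ∈ boseMesner (wrc c c')) : ∃ (α : Fin (d + 1) → ℂ) (β : Fin (e + 1) → ℂ), β 0 = 0 ∧
      ∀ p q, M p q = if p.2 = q.2 then α (c p.1 q.1) else β (c' p.2 q.2) := by
  obtain ⟨φ, hφ⟩ := bm_iff.mp hM
  refine ⟨fun k => φ ⟨k.val, by have := k.isLt; omega⟩,
    fun k => if k = 0 then 0 else φ ⟨d + k.val, by have := k.isLt; omega⟩, if_pos rfl,
    fun p q => ?_⟩
  rw [hφ]
  by_cases h : p.2 = q.2
  · rw [if_pos h]
    congr 1
    exact Fin.ext (wrc_eq c c' h)
  · rw [if_neg h]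
    have h3 : c' p.2 q.2 ≠ 0 := fun h0 => h ((hd _ _).mp h0)
    simp only [if_neg h3]
    congr 1
    exact Fin.ext (wrc_ne c c' h)

lemma wr_dec {c : X → X → Fin (d + 1)} {c' : Y → Y → Fin (e + 1)}
    (hd : ∀ x y, c' x y = 0 ↔ x = y) {M : Matrix (X × Y) (X × Y) ℂ}
    (hM : M ∈ boseMesner (wrc c c')) : ∃ A ∈ boseMesner c, ∃ B ∈ boseMesner c',
      M = inn A + outm B := by
  obtain ⟨α, β, hβ0, h⟩ := wr_val hd hM
  refine ⟨fun x y => α (c x y), bm_iff.mpr ⟨α, fun _ _ => rfl⟩, fun x y => β (c' x y),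
    bm_iff.mpr ⟨β, fun _ _ => rfl⟩, ?_⟩
  ext p q
  rw [h, Matrix.add_apply]
  by_cases h1 : p.2 = q.2
  · simp only [inn, outm, if_pos h1, (hd _ _).mpr h1, hβ0, add_zero]
  · simp only [inn, outm, if_neg h1, zero_add]

lemma map_star {Z V : Type} [Fintype Z] [DecidableEq Z] [AddCommGroup V] [Module ℂ V] {f : ℕ}
    {c : Z → Z → Fin (f + 1)} (π : (Z → Z → Z → ℂ) →ₗ[ℂ] V) (W : Submodule ℂ V)
    (h : ∀ L ∈ boseMesner c, ∀ M ∈ boseMesner c, ∀ N ∈ boseMesner c, π (Star L M N) ∈ W) :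
    ∀ T ∈ WStar c, π T ∈ W := by
  intro T hT
  have h1 : WStar c ≤ W.comap π := by
    rw [WStar, Submodule.span_le]
    rintro _ ⟨L, hL, M, hM, N, hN, rfl⟩
    exact h L hL M hM N hN
  exact h1 hT

/-- pull back from the second coordinate -/
def pY : (Y → Y → Y → ℂ) →ₗ[ℂ] (X × Y → X × Y → X × Y → ℂ) where
  toFun T p q r := T p.2 q.2 r.2
  map_add' _ _ := rfl
  map_smul' _ _ := rfl

/-- tensors on the blocks -/
def pX : (X → X → X → ℂ) →ₗ[ℂ] (X × Y → X × Y → X × Y → ℂ) where
  toFun T p q r := if p.2 = q.2 ∧ p.2 = r.2 then T p.1 q.1 r.1 else 0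
  map_add' T T' := by
    funext p q r
    simp only [Pi.add_apply]
    split_ifs <;> simp
  map_smul' a T := by
    funext p q r
    simp only [Pi.smul_apply, RingHom.id_apply, smul_eq_mul]
    split_ifs <;> simp

/-- restriction to a block -/
def rX (y₀ : Y) : (X × Y → X × Y → X × Y → ℂ) →ₗ[ℂ] (X → X → X → ℂ) where
  toFun T x y z := T (x, y₀) (y, y₀) (z, y₀)
  map_add' _ _ := rfl
  map_smul' _ _ := rfl

/-- summation over the first coordinates -/
def sY : (X × Y → X × Y → X × Y → ℂ) →ₗ[ℂ] (Y → Y → Y → ℂ) where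
  toFun T a b c := ∑ x : X, ∑ y : X, ∑ z : X, T (x, a) (y, b) (z, c)
  map_add' T T' := by
    funext a b c
    simp only [Pi.add_apply, sum_add_distrib]
  map_smul' r T := by
    funext a b c
    simp only [Pi.smul_apply, RingHom.id_apply, smul_eq_mul, mul_sum]

lemma pY_star (hX : (Fintype.card X : ℂ) ≠ 0) (L M N : Matrix Y Y ℂ) :
    (pY (Star L M N) : X × Y → X × Y → X × Y → ℂ) =
      (Fintype.card X : ℂ)⁻¹ • Star (outm L) (outm M) (outm N) := by
  funext p q r
  simp only [pY, LinearMap.coe_mk, AddHom.coe_mk, Pi.smul_apply, smul_eq_mul, st, outm]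
  rw [Fintype.sum_prod_type]
  simp only [sum_const, card_univ, nsmul_eq_mul]
  rw [← mul_assoc, inv_mul_cancel₀ hX, one_mul]

lemma pX_star (L M N : Matrix X X ℂ) :
    (pX (Star L M N) : X × Y → X × Y → X × Y → ℂ) = Star (inn L) (inn M) (inn N) := by
  funext p q r
  simp only [pX, LinearMap.coe_mk, AddHom.coe_mk, st, inn]
  rw [Fintype.sum_prod_type]
  have h1 : ∀ u : X, (∑ w : Y, (if p.2 = (u, w).2 then L p.1 (u, w).1 else 0) *
      (if q.2 = (u, w).2 then M q.1 (u, w).1 else 0) *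
      (if r.2 = (u, w).2 then N r.1 (u, w).1 else 0)) =
      if p.2 = q.2 ∧ p.2 = r.2 then L p.1 u * M q.1 u * N r.1 u else 0 := by
    intro u
    rw [Finset.sum_eq_single p.2]
    · simp only [if_true]
      by_cases h2 : p.2 = q.2
      · by_cases h3 : p.2 = r.2
        · rw [if_pos h2.symm, if_pos h3.symm, if_pos ⟨h2, h3⟩]
        · have g1 : ¬ r.2 = p.2 := fun h => h3 h.symm
          have g2 : ¬ (p.2 = q.2 ∧ p.2 = r.2) := fun h => h3 h.2
          rw [if_neg g1, if_neg g2, mul_zero]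
      · have g1 : ¬ q.2 = p.2 := fun h => h2 h.symm
        have g2 : ¬ (p.2 = q.2 ∧ p.2 = r.2) := fun h => h2 h.1
        rw [if_neg g1, if_neg g2, mul_zero, zero_mul]
    · intro w _ hw
      simp only
      have g1 : ¬ p.2 = w := fun h => hw h.symm
      rw [if_neg g1, zero_mul, zero_mul]
    · intro h; exact absurd (mem_univ _) h
  simp only [h1]
  by_cases h2 : p.2 = q.2 ∧ p.2 = r.2
  · simp only [if_pos h2]
  · simp only [if_neg h2, sum_const_zero]

lemma one_mem' {c : X → X → Fin (d + 1)} (hd : ∀ x y, c x y = 0 ↔ x = y) :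
    (1 : Matrix X X ℂ) ∈ boseMesner c := by
  refine bm_iff.mpr ⟨fun k => if k = 0 then 1 else 0, fun x y => ?_⟩
  rw [Matrix.one_apply]
  by_cases h : x = y
  · have h0 := (hd x y).mpr h
    simp only [if_pos h, if_pos h0]
  · have h0 : ¬ c x y = 0 := fun h0 => h ((hd x y).mp h0)
    simp only [if_neg h, if_neg h0]

/-- constant matrix -/
def cst (b : ℂ) : Matrix X X ℂ := fun _ _ => b

/-- matrix of a function of the colour -/
def fm (c : X → X → Fin (d + 1)) (α : Fin (d + 1) → ℂ) : Matrix X X ℂ := fun x y => α (c x y)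

lemma const_mem (c : X → X → Fin (d + 1)) (b : ℂ) :
    (cst b : Matrix X X ℂ) ∈ boseMesner c := bm_iff.mpr ⟨fun _ => b, fun _ _ => rfl⟩

lemma fm_mem (c : X → X → Fin (d + 1)) (α : Fin (d + 1) → ℂ) : fm c α ∈ boseMesner c :=
  bm_iff.mpr ⟨α, fun _ _ => rfl⟩

/-- a sum over pairs with an inner identity -/
lemma sum_one (f : X × Y → ℂ) (q : X × Y) :
    ∑ u : X × Y, f u * (inn (1 : Matrix X X ℂ) : Matrix (X × Y) (X × Y) ℂ) q u = f q := by
  rw [Finset.sum_eq_single q]
  · simp [inn]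
  · intro u _ hu
    have : (inn (1 : Matrix X X ℂ) : Matrix (X × Y) (X × Y) ℂ) q u = 0 := by
      simp only [inn, Matrix.one_apply]
      by_cases h1 : q.2 = u.2
      · rw [if_pos h1]
        by_cases h2 : q.1 = u.1
        · exact absurd (Prod.ext h2.symm h1.symm) hu
        · rw [if_neg h2]
      · rw [if_neg h1]
    rw [this, mul_zero]
  · intro h; exact absurd (mem_univ _) h

lemma star_one3 (L M : Matrix (X × Y) (X × Y) ℂ) :
    Star L M (inn (1 : Matrix X X ℂ)) = fun p q r => L p r * M q r := by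
  funext p q r
  simp only [st]
  exact sum_one (fun u => L p u * M q u) r

lemma star_one2 (L N : Matrix (X × Y) (X × Y) ℂ) :
    Star L (inn (1 : Matrix X X ℂ)) N = fun p q r => L p q * N r q := by
  funext p q r
  simp only [st]
  rw [← sum_one (fun u => L p u * N r u) q]
  exact Finset.sum_congr rfl fun u _ => by ring

section main

variable (S : SymScheme X d) (T : SymScheme Y e)

/-- from the factors to the product -/
lemma back (hS : WDelta S.c ≤ WStar S.c) (hT : WDelta T.c ≤ WStar T.c) :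
    WDelta (wrc S.c T.c) ≤ WStar (wrc S.c T.c) := by
  have hX : (Fintype.card X : ℂ) ≠ 0 := by
    obtain ⟨x, -⟩ := S.surj 0
    have : 0 < Fintype.card X := Fintype.card_pos_iff.mpr ⟨x⟩
    exact_mod_cast this.ne'
  have hTs : ∀ {B : Matrix Y Y ℂ}, B ∈ boseMesner T.c → ∀ x y, B x y = B y x := by
    intro B hB x y
    exact boseMesner_const hB (T.symm x y)
  have hSs : ∀ {B : Matrix X X ℂ}, B ∈ boseMesner S.c → ∀ x y, B x y = B y x := by
    intro B hB x y
    exact boseMesner_const hB (S.symm x y)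
  have hTd : ∀ {B : Matrix Y Y ℂ}, B ∈ boseMesner T.c → ∀ x y, B x x = B y y := by
    intro B hB x y
    exact boseMesner_const hB (((T.diag x x).mpr rfl).trans ((T.diag y y).mpr rfl).symm)
  have hI : ∀ {A : Matrix X X ℂ}, A ∈ boseMesner S.c →
      (inn A : Matrix (X × Y) (X × Y) ℂ) ∈ boseMesner (wrc S.c T.c) := fun hA => inn_mem T.diag hA
  have hO : ∀ {B : Matrix Y Y ℂ}, B ∈ boseMesner T.c →
      (outm B : Matrix (X × Y) (X × Y) ℂ) ∈ boseMesner (wrc S.c T.c) :=
    fun hB => outm_mem T.diag hB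
  have h1m : (1 : Matrix X X ℂ) ∈ boseMesner S.c := one_mem' S.diag
  -- three inner matrices
  have iii : ∀ A ∈ boseMesner S.c, ∀ B ∈ boseMesner S.c, ∀ C ∈ boseMesner S.c,
      Delta (inn A : Matrix (X × Y) (X × Y) ℂ) (inn B) (inn C) ∈ WStar (wrc S.c T.c) := by
    intro A hA B hB C hC
    have e1 : Delta (inn A : Matrix (X × Y) (X × Y) ℂ) (inn B) (inn C) = pX (Delta A B C) := by
      funext p q r
      simp only [pX, LinearMap.coe_mk, AddHom.coe_mk, Delta, inn]
      by_cases h2 : p.2 = q.2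
      · by_cases h3 : p.2 = r.2
        · have h4 : q.2 = r.2 := h2.symm.trans h3
          rw [if_pos h2, if_pos h3, if_pos h4, if_pos ⟨h2, h3⟩]
        · have g2 : ¬ (p.2 = q.2 ∧ p.2 = r.2) := fun h => h3 h.2
          rw [if_neg h3, if_neg g2, zero_mul, zero_mul]
      · have g2 : ¬ (p.2 = q.2 ∧ p.2 = r.2) := fun h => h2 h.1
        rw [if_neg h2, if_neg g2, mul_zero, zero_mul]
    rw [e1]
    refine map_star pX _ ?_ _ (hS (delta_mem hA hB hC))
    intro L hL M hM N hN
    rw [pX_star]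
    exact star_mem (hI hL) (hI hM) (hI hN)
  have hsub : boseMesner (wrc S.c T.c) ≤ Submodule.span ℂ
      ({M | ∃ A ∈ boseMesner S.c, M = inn A} ∪ {M | ∃ B ∈ boseMesner T.c, M = outm B}) := by
    intro M hM
    obtain ⟨A, hA, B, hB, rfl⟩ := wr_dec T.diag hM
    exact Submodule.add_mem _ (Submodule.subset_span (Or.inl ⟨A, hA, rfl⟩))
      (Submodule.subset_span (Or.inr ⟨B, hB, rfl⟩))
  rw [WDelta, Submodule.span_le]
  rintro _ ⟨L, hL, M, hM, N, hN, rfl⟩
  refine delta_span (WStar (wrc S.c T.c)) _ ?_ L (hsub hL) M (hsub hM) N (hsub hN)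
  rintro _ (⟨A, hA, rfl⟩ | ⟨A, hA, rfl⟩) _ (⟨B, hB, rfl⟩ | ⟨B, hB, rfl⟩) _
    (⟨C, hC, rfl⟩ | ⟨C, hC, rfl⟩)
  · exact iii A hA B hB C hC
  · -- inn inn outm
    obtain ⟨y0, -⟩ := T.surj 0
    have e1 : Delta (inn A : Matrix (X × Y) (X × Y) ℂ) (inn B) (outm C) =
        Delta (inn A) (inn B) (inn (cst (C y0 y0))) := by
      funext p q r
      simp only [Delta, inn, outm, cst]
      by_cases h2 : p.2 = q.2
      · by_cases h3 : p.2 = r.2
        · have h4 : q.2 = r.2 := h2.symm.trans h3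
          rw [if_pos h4, ← h4, hTd hC q.2 y0]
        · simp only [if_neg h3, zero_mul]
      · simp only [if_neg h2, mul_zero, zero_mul]
    rw [e1]
    exact iii A hA B hB _ (const_mem _ _)
  · -- inn outm inn
    obtain ⟨y0, -⟩ := T.surj 0
    have e1 : Delta (inn A : Matrix (X × Y) (X × Y) ℂ) (outm B) (inn C) =
        Delta (inn A) (inn (cst (B y0 y0))) (inn C) := by
      funext p q r
      simp only [Delta, inn, outm, cst]
      by_cases h3 : p.2 = r.2
      · by_cases h4 : q.2 = r.2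
        · have h2 : p.2 = q.2 := h3.trans h4.symm
          rw [if_pos h2, ← h2, hTd hB p.2 y0]
        · simp only [if_neg h4, mul_zero]
      · simp only [if_neg h3, zero_mul]
    rw [e1]
    exact iii A hA _ (const_mem _ _) C hC
  · -- inn outm outm
    have e1 : Delta (inn A : Matrix (X × Y) (X × Y) ℂ) (outm B) (outm C) =
        Star (inn A) (outm (fun y y' => B y y' * C y y')) (inn (1 : Matrix X X ℂ)) := by
      rw [star_one3]
      funext p q r
      simp only [Delta, inn, outm, cst]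
      by_cases h3 : p.2 = r.2
      · rw [if_pos h3, h3, hTs hB r.2 q.2]
        ring
      · simp only [if_neg h3, zero_mul]
    rw [e1]
    obtain ⟨β, hβ⟩ := bm_iff.mp hB
    obtain ⟨γ, hγ⟩ := bm_iff.mp hC
    exact star_mem (hI hA) (hO (bm_iff.mpr ⟨fun k => β k * γ k, fun x y => by rw [hβ, hγ]⟩))
      (hI h1m)
  · -- outm inn inn
    obtain ⟨y0, -⟩ := T.surj 0
    have e1 : Delta (outm A : Matrix (X × Y) (X × Y) ℂ) (inn B) (inn C) =
        Delta (inn (cst (A y0 y0))) (inn B) (inn C) := by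
      funext p q r
      simp only [Delta, inn, outm, cst]
      by_cases h2 : p.2 = q.2
      · by_cases h4 : q.2 = r.2
        · have h3 : p.2 = r.2 := h2.trans h4
          rw [if_pos h3, ← h3, hTd hA p.2 y0]
        · simp only [if_neg h4, mul_zero]
      · simp only [if_neg h2, mul_zero, zero_mul]
    rw [e1]
    exact iii _ (const_mem _ _) B hB C hC
  · -- outm inn outm
    have e1 : Delta (outm A : Matrix (X × Y) (X × Y) ℂ) (inn B) (outm C) =
        Star (inn B) (inn (1 : Matrix X X ℂ)) (outm (fun y y' => A y y' * C y y')) := by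
      rw [star_one2]
      funext p q r
      simp only [Delta, inn, outm, cst]
      by_cases h2 : p.2 = q.2
      · rw [if_pos h2, h2, hTs hA q.2 r.2, hTs hC q.2 r.2]
        ring
      · simp only [if_neg h2, mul_zero, zero_mul]
    rw [e1]
    obtain ⟨β, hβ⟩ := bm_iff.mp hA
    obtain ⟨γ, hγ⟩ := bm_iff.mp hC
    exact star_mem (hI hB) (hI h1m)
      (hO (bm_iff.mpr ⟨fun k => β k * γ k, fun x y => by rw [hβ, hγ]⟩))
  · -- outm outm inn
    have e1 : Delta (outm A : Matrix (X × Y) (X × Y) ℂ) (outm B) (inn C) =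
        Star (outm (fun y y' => A y y' * B y y')) (inn C) (inn (1 : Matrix X X ℂ)) := by
      rw [star_one3]
      funext p q r
      simp only [Delta, inn, outm, cst]
      by_cases h4 : q.2 = r.2
      · simp only [if_pos h4, h4]
      · simp only [if_neg h4, mul_zero]
    rw [e1]
    obtain ⟨β, hβ⟩ := bm_iff.mp hA
    obtain ⟨γ, hγ⟩ := bm_iff.mp hB
    exact star_mem (hO (bm_iff.mpr ⟨fun k => β k * γ k, fun x y => by rw [hβ, hγ]⟩)) (hI hC)
      (hI h1m)
  · -- outm outm outm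
    have e1 : Delta (outm A : Matrix (X × Y) (X × Y) ℂ) (outm B) (outm C) =
        pY (Delta A B C) := rfl
    rw [e1]
    refine map_star pY _ ?_ _ (hT (delta_mem hA hB hC))
    intro L hL M hM N hN
    rw [pY_star hX]
    exact Submodule.smul_mem _ _ (star_mem (hO hL) (hO hM) (hO hN))

/-- sums over columns do not depend on the column -/
lemma col_sum (φ : Fin (d + 1) → ℂ) (u v : X) :
    ∑ x, φ (S.c x u) = ∑ x, φ (S.c x v) := by
  have h1 : ∀ u : X, ∑ x, φ (S.c x u) =
      ∑ i, ((univ.filter fun x => S.c x u = i).card : ℂ) * φ i := by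
    intro u
    rw [← Finset.sum_fiberwise_of_maps_to (s := univ) (t := univ) (g := fun x => S.c x u)
      (fun x _ => mem_univ _)]
    refine Finset.sum_congr rfl fun i _ => ?_
    rw [Finset.sum_congr rfl (g := fun _ => φ i) (fun x hx => by
      rw [(Finset.mem_filter.mp hx).2]), sum_const, nsmul_eq_mul]
  rw [h1 u, h1 v]
  refine Finset.sum_congr rfl fun i _ => ?_
  have h2 := S.regular i i u u v v (((S.diag u u).mpr rfl).trans ((S.diag v v).mpr rfl).symm)
  have h3 : ∀ u : X, (univ.filter fun z => S.c u z = i ∧ S.c z u = i) =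
      univ.filter fun x => S.c x u = i := by
    intro u
    ext z
    simp only [mem_filter, mem_univ, true_and]
    rw [S.symm u z]
    exact ⟨fun h => h.1, fun h => ⟨h, h⟩⟩
  rw [h3, h3] at h2
  rw [h2]

/-- from the product to the first factor -/
lemma fwdS (h : WDelta (wrc S.c T.c) ≤ WStar (wrc S.c T.c)) : WDelta S.c ≤ WStar S.c := by
  have hX : (Fintype.card X : ℂ) ≠ 0 := by
    obtain ⟨x, -⟩ := S.surj 0
    have : 0 < Fintype.card X := Fintype.card_pos_iff.mpr ⟨x⟩
    exact_mod_cast this.ne'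
  obtain ⟨y₀, -⟩ := T.surj 0
  rw [WDelta, Submodule.span_le]
  rintro _ ⟨A, hA, B, hB, C, hC, rfl⟩
  have e1 : Delta A B C = rX y₀ (Delta (inn A : Matrix (X × Y) (X × Y) ℂ) (inn B) (inn C)) := by
    funext x y z
    simp [rX, Delta, inn]
  change Delta A B C ∈ WStar S.c
  rw [e1]
  refine map_star (rX y₀) _ ?_ _ (h (delta_mem (inn_mem T.diag hA) (inn_mem T.diag hB)
    (inn_mem T.diag hC)))
  intro L hL M hM N hN
  obtain ⟨α₁, β₁, -, h₁⟩ := wr_val T.diag hL
  obtain ⟨α₂, β₂, -, h₂⟩ := wr_val T.diag hM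
  obtain ⟨α₃, β₃, -, h₃⟩ := wr_val T.diag hN
  have e2 : rX y₀ (Star L M N) =
      Star (fm S.c α₁) (fm S.c α₂) (fm S.c α₃) +
      (∑ w ∈ univ.erase y₀, β₁ (T.c y₀ w) * β₂ (T.c y₀ w) * β₃ (T.c y₀ w)) •
        Star (cst 1 : Matrix X X ℂ) (cst 1) (cst 1) := by
    funext x y z
    simp only [rX, LinearMap.coe_mk, AddHom.coe_mk, st, Pi.add_apply, Pi.smul_apply, smul_eq_mul,
      fm, cst, mul_one, sum_const, card_univ, nsmul_eq_mul]
    rw [Fintype.sum_prod_type_right, ← Finset.add_sum_erase univ _ (mem_univ y₀)]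
    congr 1
    · refine Finset.sum_congr rfl fun u _ => ?_
      rw [h₁, h₂, h₃]
      simp
    · rw [sum_mul]
      refine Finset.sum_congr rfl fun w hw => ?_
      have hne : y₀ ≠ w := (ne_of_mem_erase hw).symm
      have h5 : ∀ u : X, L (x, y₀) (u, w) * M (y, y₀) (u, w) * N (z, y₀) (u, w) =
          β₁ (T.c y₀ w) * β₂ (T.c y₀ w) * β₃ (T.c y₀ w) := by
        intro u
        rw [h₁, h₂, h₃]
        simp only [if_neg hne]
      simp only [h5, sum_const, card_univ, nsmul_eq_mul]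
      ring
  rw [e2]
  refine Submodule.add_mem _ (star_mem (fm_mem _ _) (fm_mem _ _) (fm_mem _ _))
    (Submodule.smul_mem _ _ (star_mem (const_mem _ _) (const_mem _ _) (const_mem _ _)))

/-- from the product to the second factor -/
lemma fwdT (h : WDelta (wrc S.c T.c) ≤ WStar (wrc S.c T.c)) : WDelta T.c ≤ WStar T.c := by
  obtain ⟨u₀, -⟩ := S.surj 0
  have hX : (Fintype.card X : ℂ) ≠ 0 := by
    have : 0 < Fintype.card X := Fintype.card_pos_iff.mpr ⟨u₀⟩
    exact_mod_cast this.ne'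
  rw [WDelta, Submodule.span_le]
  rintro _ ⟨A, hA, B, hB, C, hC, rfl⟩
  have e1 : Delta A B C = ((Fintype.card X : ℂ) ^ 3)⁻¹ •
      sY (Delta (outm A : Matrix (X × Y) (X × Y) ℂ) (outm B) (outm C)) := by
    funext x y z
    simp only [sY, LinearMap.coe_mk, AddHom.coe_mk, Delta, outm, Pi.smul_apply, smul_eq_mul,
      sum_const, card_univ, nsmul_eq_mul]
    field_simp
  change Delta A B C ∈ WStar T.c
  rw [e1]
  refine Submodule.smul_mem _ _ (map_star sY _ ?_ _ (h (delta_mem (outm_mem T.diag hA)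
    (outm_mem T.diag hB) (outm_mem T.diag hC))))
  -- the averaged matrices
  have key : ∀ M ∈ boseMesner (wrc S.c T.c), ∃ m ∈ boseMesner T.c,
      ∀ (y w : Y) (u : X), ∑ x : X, M (x, y) (u, w) = m y w := by
    intro M hM
    obtain ⟨α, β, -, hM'⟩ := wr_val T.diag hM
    refine ⟨fun y w => if y = w then ∑ x, α (S.c x u₀) else (Fintype.card X : ℂ) * β (T.c y w),
      bm_iff.mpr ⟨fun k => if k = 0 then ∑ x, α (S.c x u₀) else (Fintype.card X : ℂ) * β k,
        fun y w => ?_⟩, fun y w u => ?_⟩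
    · by_cases h1 : y = w
      · simp only [if_pos h1, if_pos ((T.diag y w).mpr h1)]
      · simp only [if_neg h1, if_neg (fun h0 => h1 ((T.diag y w).mp h0))]
    · by_cases h1 : y = w
      · simp only [if_pos h1]
        rw [col_sum S α u₀ u]
        refine Finset.sum_congr rfl fun x _ => ?_
        rw [hM']
        simp only [if_pos h1]
      · simp only [if_neg h1]
        have h5 : ∀ x : X, M (x, y) (u, w) = β (T.c y w) := by
          intro x
          rw [hM']
          simp only [if_neg h1]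
        simp only [h5, sum_const, card_univ, nsmul_eq_mul]
  intro L hL M hM N hN
  obtain ⟨l, hl, hl'⟩ := key L hL
  obtain ⟨m, hm, hm'⟩ := key M hM
  obtain ⟨n, hn, hn'⟩ := key N hN
  have e2 : sY (Star L M N) = (Fintype.card X : ℂ) • Star l m n := by
    funext a b c
    simp only [sY, LinearMap.coe_mk, AddHom.coe_mk, st, Pi.smul_apply, smul_eq_mul]
    have e3 : ∑ x : X, ∑ y : X, ∑ z : X, ∑ u : X × Y, L (x, a) u * M (y, b) u * N (z, c) u =
        ∑ u : X × Y, (∑ x : X, L (x, a) u) * (∑ y : X, M (y, b) u) * (∑ z : X, N (z, c) u) := by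
      have f1 : ∀ x y : X, ∑ z : X, ∑ u : X × Y, L (x, a) u * M (y, b) u * N (z, c) u =
          ∑ u : X × Y, L (x, a) u * M (y, b) u * ∑ z : X, N (z, c) u := by
        intro x y
        rw [sum_comm]
        refine Finset.sum_congr rfl fun u _ => ?_
        rw [← mul_sum]
      have f2 : ∀ x : X, ∑ y : X, ∑ u : X × Y, L (x, a) u * M (y, b) u * ∑ z : X, N (z, c) u =
          ∑ u : X × Y, L (x, a) u * (∑ y : X, M (y, b) u) * ∑ z : X, N (z, c) u := by
        intro x
        rw [sum_comm]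
        refine Finset.sum_congr rfl fun u _ => ?_
        rw [← sum_mul, ← mul_sum]
      simp only [f1, f2]
      rw [sum_comm]
      refine Finset.sum_congr rfl fun u _ => ?_
      rw [← sum_mul, ← sum_mul]
    rw [e3, Fintype.sum_prod_type]
    simp only [hl', hm', hn', sum_const, card_univ, nsmul_eq_mul]
  rw [e2]
  exact Submodule.smul_mem _ _ (star_mem hl hm hn)

end main

theorem main : S_WDELTA := by
  intro X Y _ _ _ _ d e S T
  exact ⟨fun h => ⟨fwdS S T h, fwdT S T h⟩, fun h => back S T h.1 h.2⟩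

end Pool.Agent.Y146.ETR
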